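import Mathlib

set_option autoImplicit false
set_option maxHeartbeats 400000

open Finset ComplexConjugate

namespace Pool.Agent.Results.MP_4640da_an.Exists

/-- positive definite functions on a group -/
def PD {G : Type} [Group G] (φ : G → ℂ) : Prop :=
  ∀ (n : ℕ) (g : Fin n → G) (c : Fin n → ℂ),
    0 ≤ (∑ i, ∑ j, c i * conj (c j) * φ ((g j)⁻¹ * g i)).re ∧
      (∑ i, ∑ j, c i * conj (c j) * φ ((g j)⁻¹ * g i)).im = 0

/-- normalised positive definite functions invariant under all automorphisms -/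
def Inv (G : Type) [Group G] : Set (G → ℂ) :=
  {φ | PD φ ∧ φ 1 = 1 ∧ ∀ (α : G ≃* G) (g : G), φ (α g) = φ g}

section
variable {G : Type} [Group G] {φ : G → ℂ}

theorem PD.fin (h : PD φ) {ι : Type} [Fintype ι] (g : ι → G) (c : ι → ℂ) :
    0 ≤ (∑ i, ∑ j, c i * conj (c j) * φ ((g j)⁻¹ * g i)).re := by
  have e := (Fintype.equivFin ι).symm
  have := (h _ (g ∘ e) (c ∘ e)).1
  rw [← e.sum_comp]
  simp only [← e.sum_comp (fun j => _ * conj (c j) * φ ((g j)⁻¹ * _))]
  exact this

theorem PD.herm (h : PD φ) (h1 : φ 1 = 1) (g : G) : φ g⁻¹ = conj (φ g) := by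
  have a := (h 2 ![1, g] ![1, 1]).2
  have b := (h 2 ![1, g] ![1, Complex.I]).2
  simp [Fin.sum_univ_two, h1] at a b
  apply Complex.ext <;> simp <;> linarith

theorem PD.re_le (h : PD φ) (h1 : φ 1 = 1) (g : G) : Complex.normSq (φ g) ≤ 1 := by
  have a := (h 2 ![1, g] ![φ g, -1]).1
  simp [Fin.sum_univ_two, h1, h.herm h1] at a
  rw [Complex.normSq_apply]; linarith

theorem PD.mul (h : PD φ) (h1 : φ 1 = 1) (g k : G) (hk : φ k = 1) : φ (g * k) = φ g := by
  by_contra hne
  set d := φ (g * k) - φ g with hd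
  have d0 : 0 < Complex.normSq d := Complex.normSq_pos.2 (sub_ne_zero.2 hne)
  have e : φ (g * k) = φ g + d := by rw [hd]; ring
  clear_value d
  have a := (h 3 ![1, g, g * k] ![Complex.normSq d, conj d, -conj d]).1
  have q1 : φ (k⁻¹ * g⁻¹) = conj (φ g + d) := by rw [← mul_inv_rev, h.herm h1, e]
  simp [Fin.sum_univ_three, h1, h.herm h1, hk, e, q1, mul_assoc] at a
  rw [Complex.normSq_apply] at *
  nlinarith
end

variable {r : ℕ}

abbrev V (r : ℕ) : Type := Fin r → ZMod 2

def π : FreeGroup (Fin r) →* Multiplicative (V r) :=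
  FreeGroup.lift fun i => Multiplicative.ofAdd (Pi.single i 1)

theorem ker (α : FreeGroup (Fin r) →* FreeGroup (Fin r)) (g : FreeGroup (Fin r)) (h : π g = 1) :
    π (α g) = 1 := by
  let L : V r →+ V r := ((Pi.basisFun (ZMod 2) (Fin r)).constr (ZMod 2)
    fun i => Multiplicative.toAdd (π (α (FreeGroup.of i)))).toAddMonoidHom
  have : π.comp α = (AddMonoidHom.toMultiplicative L).comp π := by
    refine FreeGroup.ext_hom _ _ fun i => ?_
    have := (Pi.basisFun (ZMod 2) (Fin r)).constr_basis (ZMod 2)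
      (fun i => Multiplicative.toAdd (π (α (FreeGroup.of i)))) i
    rw [Pi.basisFun_apply] at this
    show π (α (FreeGroup.of i)) = Multiplicative.ofAdd (L (Multiplicative.toAdd (π (FreeGroup.of i))))
    rw [show π (FreeGroup.of i) = Multiplicative.ofAdd (Pi.single i 1) by simp [π]]
    exact congrArg Multiplicative.ofAdd this.symm
  have := DFunLike.congr_fun this g
  simpa [h] using this

theorem kerE (α : FreeGroup (Fin r) ≃* FreeGroup (Fin r)) (g : FreeGroup (Fin r)) :
    π (α g) = 1 ↔ π g = 1 :=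
  ⟨fun h => by simpa using ker α.symm.toMonoidHom _ h, ker α.toMonoidHom g⟩

def wd (v : V r) : FreeGroup (Fin r) :=
  ((List.finRange r).map fun j => if v j = 1 then FreeGroup.of j else 1).prod

theorem πw (v : V r) : π (wd v) = Multiplicative.ofAdd v := by
  rw [wd, map_list_prod, List.map_map, ← Fin.prod_univ_def]
  conv_rhs => rw [← univ_sum_single v, ofAdd_sum]
  refine prod_congr rfl fun j _ => ?_
  have : v j = 0 ∨ v j = 1 := by generalize v j = x; revert x; decide
  rcases this with h | h <;> simp [h, π]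

theorem fixw (f : Fin r → FreeGroup (Fin r)) (v : V r) (h : ∀ j, v j = 1 → f j = FreeGroup.of j) :
    FreeGroup.lift f (wd v) = wd v := by
  rw [wd, map_list_prod, List.map_map]; congr 2; funext j
  simp only [Function.comp]; split_ifs with hj
  · simp [h j hj]
  · simp

theorem trans (i : Fin r) (v : V r) (hv : v ≠ 0) :
    ∃ α : FreeGroup (Fin r) ≃* FreeGroup (Fin r), π (α (.of i)) = Multiplicative.ofAdd v := by
  obtain ⟨k, hk⟩ := Function.ne_iff.1 hv
  have hk : v k = 1 := by revert hk; simp only [Pi.zero_apply]; generalize v k = x; revert x; decide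
  let u := Function.update v k 0
  have fx : ∀ y, FreeGroup.lift (Function.update FreeGroup.of k y) (wd u) = wd u := fun y =>
    fixw _ _ fun j hj => by
      by_cases h : j = k
      · subst h; simp [u] at hj
      · simp [h]
  let β : FreeGroup (Fin r) ≃* FreeGroup (Fin r) := MonoidHom.toMulEquiv
    (FreeGroup.lift (Function.update FreeGroup.of k (.of k * wd u)))
    (FreeGroup.lift (Function.update FreeGroup.of k (.of k * (wd u)⁻¹)))
    (FreeGroup.ext_hom _ _ fun j => by
      by_cases h : j = k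
      · subst h; simp [fx]
      · simp [h])
    (FreeGroup.ext_hom _ _ fun j => by
      by_cases h : j = k
      · subst h; simp [fx]
      · simp [h])
  refine ⟨(FreeGroup.freeGroupCongr (Equiv.swap i k)).trans β, ?_⟩
  simp [β, πw]
  rw [show π (FreeGroup.of k) = Multiplicative.ofAdd (Pi.single k 1) by simp [π], ← ofAdd_add]
  congr 1; funext j
  by_cases h : j = k
  · subst h; simp [u, hk]
  · simp [u, h]

open Classical in
noncomputable def τ (g : FreeGroup (Fin r)) : ℂ := if π g = 1 then 1 else -1 / (2 ^ r - 1 : ℝ)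

theorem cV : (Fintype.card (V r) : ℝ) = 2 ^ r := by simp

theorem pdτ (N : (1 : ℝ) < 2 ^ r) : PD (τ (r := r)) := by
  classical
  intro n g c
  have N0 : (0 : ℝ) < 2 ^ r - 1 := by linarith
  let C : V r → ℂ := fun v => ∑ i, if π (g i) = Multiplicative.ofAdd v then c i else 0
  have s1 : ∑ v, C v = ∑ i, c i := by
    rw [sum_comm]; refine sum_congr rfl fun i _ => ?_
    rw [sum_eq_single (Multiplicative.toAdd (π (g i)))] <;> simp
    intro b hb h; exact (hb (by simp [h])).elim
  have s2 : ∑ v, C v * conj (C v) =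
      ∑ i, ∑ j, c i * conj (c j) * if π (g i) = π (g j) then 1 else 0 := by
    simp only [C, map_sum, sum_mul_sum]
    rw [sum_comm]; refine sum_congr rfl fun i _ => ?_
    rw [sum_comm]; refine sum_congr rfl fun j _ => ?_
    rw [sum_eq_single (Multiplicative.toAdd (π (g i)))]
    · by_cases h : π (g i) = π (g j)
      · simp [h]
      · simp [h, Ne.symm h]
    · intro b _ hb
      rw [if_neg fun h => hb (by simp [h]), zero_mul]
    · simp
  have key : ∑ i, ∑ j, c i * conj (c j) * τ ((g j)⁻¹ * g i) =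
      ((2 ^ r * ∑ v, ‖C v‖ ^ 2 - ‖∑ v, C v‖ ^ 2) / (2 ^ r - 1) : ℝ) := by
    push_cast
    simp only [← Complex.mul_conj']
    rw [s1, s2, map_sum, sum_mul_sum, mul_sum, ← sum_sub_distrib, sum_div]
    refine sum_congr rfl fun i _ => ?_
    rw [mul_sum, ← sum_sub_distrib, sum_div]
    refine sum_congr rfl fun j _ => ?_
    have : ((2 : ℂ) ^ r - 1) ≠ 0 := by exact_mod_cast N0.ne'
    simp only [τ, map_mul, map_inv, inv_mul_eq_one, eq_comm (a := π (g j))]
    push_cast
    split_ifs <;> field_simp <;> ring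
  rw [key, Complex.ofReal_re, Complex.ofReal_im]
  refine ⟨div_nonneg (sub_nonneg.2 ?_) N0.le, rfl⟩
  calc ‖∑ v, C v‖ ^ 2 ≤ (∑ v, ‖C v‖) ^ 2 := by gcongr; exact norm_sum_le _ _
    _ ≤ _ := by
      have := sq_sum_le_card_mul_sum_sq (s := (univ : Finset (V r))) (f := fun v => ‖C v‖)
      rwa [card_univ, cV] at this

theorem low (N : (1 : ℝ) < 2 ^ r) (i : Fin r) {φ : FreeGroup (Fin r) → ℂ} (h : φ ∈ Inv _)
    (hk : ∀ k, π k = 1 → φ k = 1) :
    (∀ g, π g ≠ 1 → φ g = φ (.of i)) ∧ (φ (.of i)).im = 0 ∧ -1 / (2 ^ r - 1) ≤ (φ (.of i)).re := by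
  classical
  obtain ⟨h0, h1, h2⟩ := h
  have a : ∀ g, π g ≠ 1 → φ g = φ (.of i) := fun g hg => by
    obtain ⟨α, hα⟩ := trans i (Multiplicative.toAdd (π g)) hg
    rw [← h2 α (.of i), ← h0.mul h1 (α (.of i)) ((α (.of i))⁻¹ * g) (hk _ (by simp [hα]))]; simp
  refine ⟨a, ?_, ?_⟩
  · have := h0.herm h1 (.of i)
    rw [a _ (by
      rw [map_inv, Ne, inv_eq_one]
      intro h; have := congrFun (congrArg Multiplicative.toAdd h) i
      simp [π] at this)] at this
    have := congrArg Complex.im this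
    simp at this; linarith
  · have := h0.fin (wd (r := r)) fun _ => 1
    have e : ∀ v w : V r, (1 : ℂ) * conj 1 * φ ((wd w)⁻¹ * wd v) =
        φ (.of i) + if w = v then 1 - φ (.of i) else 0 := fun v w => by
      split_ifs with h
      · simp [h, h1]
      · rw [a _ (by simpa [πw, inv_mul_eq_one] using h)]; simp
    simp only [e, sum_add_distrib] at this
    simp at this
    rw [div_le_iff₀ (by linarith)]
    have p : (0 : ℝ) < 2 ^ r := by positivity
    rw [show ((2 : ℂ) ^ r) = ((2 ^ r : ℝ) : ℂ) by push_cast; rfl] at this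
    simp only [Complex.ofReal_re, Complex.ofReal_im] at this
    nlinarith

theorem result (r : ℕ) (hr : 2 ≤ r) (i : Fin r) :
    ∃ τ ∈ (Inv (FreeGroup (Fin r))).extremePoints ℝ, τ ≠ (fun _ => 1) ∧ τ (FreeGroup.of i) ≠ 0 := by
  have N : (1 : ℝ) < 2 ^ r := one_lt_pow₀ (by norm_num) (by omega)
  have N0 : (0 : ℝ) < 2 ^ r - 1 := by linarith
  have hi : π (FreeGroup.of i) ≠ 1 := by
    intro h; have := congrFun (congrArg Multiplicative.toAdd h) i
    simp [π] at this
  have ti : τ (FreeGroup.of i) = ((-1 / (2 ^ r - 1) : ℝ) : ℂ) := by simp [τ, hi]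
  have neg : (-1 / (2 ^ r - 1) : ℝ) < 0 := div_neg_of_neg_of_pos (by norm_num) N0
  refine ⟨τ, ?_, fun h => ?_, ?_⟩
  · rw [mem_extremePoints_iff_left]
    refine ⟨⟨pdτ N, by simp [τ], fun α g => by simp only [τ, kerE]⟩, ?_⟩
    rintro x hx y hy ⟨a, b, ha, hb, hab, e⟩
    have k : ∀ k, π k = 1 → x k = 1 ∧ y k = 1 := fun k hk => by
      have e1 := congrArg Complex.re (congrFun e k)
      simp [τ, hk] at e1
      have p := hx.1.re_le hx.2.1 k; have q := hy.1.re_le hy.2.1 k
      rw [Complex.normSq_apply] at p q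
      have p1 : (x k).re ≤ 1 := by nlinarith
      have q1 : (y k).re ≤ 1 := by nlinarith
      have p2 : (x k).re = 1 := by nlinarith
      have q2 : (y k).re = 1 := by nlinarith
      rw [p2] at p; rw [q2] at q
      exact ⟨Complex.ext p2 (by simp; nlinarith), Complex.ext q2 (by simp; nlinarith)⟩
    obtain ⟨x1, x2, x3⟩ := low N i hx fun g hg => (k g hg).1
    obtain ⟨-, -, y3⟩ := low N i hy fun g hg => (k g hg).2
    have e1 := congrArg Complex.re (congrFun e (.of i))
    rw [ti, Complex.ofReal_re] at e1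
    simp at e1
    funext g
    by_cases hg : π g = 1
    · rw [(k g hg).1]; simp [τ, hg]
    · rw [x1 g hg, show τ g = τ (.of i) by simp [τ, hg, hi], ti]
      refine Complex.ext ?_ (by rw [x2, Complex.ofReal_im])
      rw [Complex.ofReal_re]
      generalize (-1 / (2 ^ r - 1) : ℝ) = m at *
      obtain rfl : b = 1 - a := by linarith
      nlinarith
  · have := congrFun h (.of i)
    rw [ti] at this
    have : (-1 / (2 ^ r - 1) : ℝ) = 1 := by exact_mod_cast this
    linarith
  · rw [ti]; exact_mod_cast neg.ne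

end Pool.Agent.Results.MP_4640da_an.Exists
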